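import Mathlib

set_option autoImplicit false

namespace Pool.Agent.Results.MP_742338_co.No

open Multiset

variable {V : Type} [DecidableEq V]

/-- The number of half-edges at `v`; a loop counts twice. -/
def deg (G : Multiset (Sym2 V)) (v : V) : ℕ := (G.bind Sym2.toMultiset).count v

/-- `e` is not a loop and has multiplicity one in `G`. -/
def SimpleEdge (G : Multiset (Sym2 V)) (e : Sym2 V) : Prop := ¬ e.IsDiag ∧ G.count e = 1

def Simple (G : Multiset (Sym2 V)) : Prop := ∀ e ∈ G, SimpleEdge G e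

/-- `G'` arises from `G` by a double edge swap whose removed edges satisfy `P`. -/
def SwapWith (P : Sym2 V → Sym2 V → Prop) (G G' : Multiset (Sym2 V)) : Prop :=
  ∃ a b c d R, G = s(a, b) ::ₘ s(c, d) ::ₘ R ∧ G' = s(b, c) ::ₘ s(d, a) ::ₘ R ∧ P s(a, b) s(c, d)

def Swap (G G' : Multiset (Sym2 V)) : Prop := SwapWith (fun _ _ => True) G G'

/-- A swap whose removed edges are not both simple. -/
def GoodSwap (G G' : Multiset (Sym2 V)) : Prop :=
  SwapWith (fun e f => ¬ (SimpleEdge G e ∧ SimpleEdge G f)) G G'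

/-- `n` steps of `r` lead from the first multigraph to the second. -/
def Steps (r : Multiset (Sym2 V) → Multiset (Sym2 V) → Prop) :
    ℕ → Multiset (Sym2 V) → Multiset (Sym2 V) → Prop
  | 0, G, H => G = H
  | n + 1, G, H => ∃ G', r G G' ∧ Steps r n G' H

theorem first (e : Sym2 V) (H : Multiset (Sym2 V)) (n : ℕ) (G : Multiset (Sym2 V))
    (h : Steps Swap n G H) (c : H.count e < G.count e) :
    ∃ m G', n = m + 1 ∧ SwapWith (fun f _ => f = e) G G' ∧ Steps Swap m G' H := by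
  induction n generalizing G with
  | zero => exact absurd (h ▸ c) (lt_irrefl _)
  | succ n ih =>
    obtain ⟨_, ⟨a, b, x, y, R, rfl, rfl, -⟩, h⟩ := h
    by_cases e1 : s(a, b) = e
    · exact ⟨n, _, rfl, ⟨a, b, x, y, R, rfl, rfl, e1⟩, h⟩
    by_cases e2 : s(x, y) = e
    · exact ⟨n, _, rfl, ⟨x, y, a, b, R, cons_swap _ _ _, cons_swap _ _ _, e2⟩, h⟩
    rw [count_cons_of_ne (Ne.symm e1), count_cons_of_ne (Ne.symm e2)] at c
    obtain ⟨m, _, rfl, ⟨p, q, u, v, S, k, rfl, rfl⟩, h'⟩ :=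
      ih _ h (c.trans_le (count_le_of_le _ ((le_cons_self _ _).trans (le_cons_self _ _))))
    obtain ⟨R, rfl⟩ := exists_cons_of_mem (count_pos.mp (c.trans_le' (Nat.zero_le _)))
    rw [cons_swap s(y, a), cons_swap s(b, x), cons_inj_right] at k
    have key : ∀ a b x y u v p q : V, s(b, x) = s(u, v) → s(y, a) ::ₘ R = S →
        ∃ G', SwapWith (fun f _ => f = s(p, q)) (s(a, b) ::ₘ s(x, y) ::ₘ s(p, q) ::ₘ R) G' ∧
          Swap G' (s(q, u) ::ₘ s(v, p) ::ₘ S) := by
      rintro a b x y u v p q kk rfl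
      rcases Sym2.eq_iff.mp kk with ⟨rfl, rfl⟩ | ⟨rfl, rfl⟩
      · refine ⟨_, ⟨p, q, b, a, s(x, y) ::ₘ R, ?_, rfl, rfl⟩, p, a, y, x, s(q, b) ::ₘ R, ?_, ?_, trivial⟩ <;>
          simp only [Sym2.eq_swap (a := b) (b := a), Sym2.eq_swap (a := a) (b := p),
            Sym2.eq_swap (a := y) (b := x), Sym2.eq_swap (a := y) (b := a), ← singleton_add] <;> abel
      · refine ⟨_, ⟨q, p, b, a, s(x, y) ::ₘ R, ?_, rfl, Sym2.eq_swap⟩, q, a, y, x, s(p, b) ::ₘ R, ?_, ?_,
          trivial⟩ <;>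
          simp only [Sym2.eq_swap (a := b) (b := a), Sym2.eq_swap (a := a) (b := q),
            Sym2.eq_swap (a := y) (b := x), Sym2.eq_swap (a := y) (b := a), Sym2.eq_swap (a := q) (b := p),
            Sym2.eq_swap (a := x) (b := q), Sym2.eq_swap (a := b) (b := p), ← singleton_add] <;> abel
    have : s(u, v) ∈ s(b, x) ::ₘ s(y, a) ::ₘ R := k ▸ mem_cons_self _ _
    simp only [mem_cons] at this
    rcases this with t | t | t
    · obtain ⟨G', g1, g2⟩ := key a b x y u v p q t.symm (by rwa [t, cons_inj_right] at k)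
      exact ⟨_, G', rfl, g1, _, g2, h'⟩
    · obtain ⟨G', g1, g2⟩ := key x y a b u v p q t.symm (by rwa [t, cons_swap, cons_inj_right] at k)
      exact ⟨_, G', rfl, cons_swap _ _ _ ▸ g1, _, g2, h'⟩
    · obtain ⟨R, rfl⟩ := exists_cons_of_mem t
      rw [cons_swap s(y, a), cons_swap s(b, x), cons_inj_right] at k
      subst k
      refine ⟨_, _, rfl, ⟨p, q, u, v, s(a, b) ::ₘ s(x, y) ::ₘ R, ?_, rfl, rfl⟩, _,
        ⟨a, b, x, y, s(q, u) ::ₘ s(v, p) ::ₘ R, ?_, ?_, trivial⟩, h'⟩ <;>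
        simp only [← singleton_add] <;> abel

theorem good (H : Multiset (Sym2 V)) (hH : Simple H) (n : ℕ) (G : Multiset (Sym2 V))
    (h : Steps Swap n G H) (m : ∀ m H', Simple H' → Steps Swap m G H' → n ≤ m) : Steps GoodSwap n G H := by
  induction n generalizing G with
  | zero => exact h
  | succ n ih =>
    obtain ⟨e, he, s⟩ : ∃ e ∈ G, ¬ SimpleEdge G e := by
      by_contra! k
      exact absurd (m 0 G k rfl) (by omega)
    obtain ⟨_, G', ⟨⟩, ⟨a, b, c, d, R, h1, h2, rfl⟩, h3⟩ := first e H _ G h (by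
      have := count_pos.mpr he
      by_cases k : e ∈ H
      · have := hH e k
        simp only [SimpleEdge] at s this
        have : count e G ≠ 1 := fun q => s ⟨this.1, q⟩
        omega
      · rwa [count_eq_zero.mpr k])
    exact ⟨G', ⟨a, b, c, d, R, h1, h2, fun k => s k.1⟩, ih G' h3 fun k H' s' t => by
      have := m (k + 1) H' s' ⟨G', ⟨a, b, c, d, R, h1, h2, trivial⟩, t⟩
      omega⟩

theorem cons_steps (e : Sym2 V) (n : ℕ) (G H : Multiset (Sym2 V)) (h : Steps Swap n G H) :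
    Steps Swap n (e ::ₘ G) (e ::ₘ H) := by
  induction n generalizing G with
  | zero => exact congrArg _ h
  | succ n ih =>
    obtain ⟨_, ⟨a, b, c, d, R, rfl, rfl, -⟩, h⟩ := h
    refine ⟨_, ⟨a, b, c, d, e ::ₘ R, ?_, ?_, trivial⟩, ih _ h⟩ <;> simp only [← singleton_add] <;> abel

theorem conn (H : Multiset (Sym2 V)) (hH : ∀ e ∈ H, ¬ e.IsDiag) (G : Multiset (Sym2 V))
    (h : H.bind Sym2.toMultiset = G.bind Sym2.toMultiset) : ∃ n, Steps Swap n G H := by
  have tm : ∀ a b : V, s(a, b).toMultiset = {a} + {b} := fun a b => rfl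
  induction H using Multiset.induction_on generalizing G with
  | empty =>
    refine ⟨0, eq_zero_of_forall_notMem fun e he => ?_⟩
    induction e with | _ a b
    have : a ∈ G.bind Sym2.toMultiset := mem_bind.mpr ⟨_, he, by simp⟩
    simp [← h] at this
  | cons e H ih =>
    induction e with | _ a b
    have st : ∀ R, (s(a, b) ::ₘ H).bind Sym2.toMultiset = (s(a, b) ::ₘ R).bind Sym2.toMultiset →
        ∃ n, Steps Swap n (s(a, b) ::ₘ R) (s(a, b) ::ₘ H) := fun R k => by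
      rw [cons_bind, cons_bind, add_right_inj] at k
      exact (ih (fun e he => hH e (mem_cons_of_mem he)) R k).imp fun n => cons_steps _ n _ _
    by_cases k : s(a, b) ∈ G
    · obtain ⟨R, rfl⟩ := exists_cons_of_mem k
      exact st R h
    have ab : a ≠ b := fun q => hH _ (mem_cons_self _ _) (Sym2.mk_isDiag_iff.mpr q)
    obtain ⟨f, hf, ha⟩ := mem_bind.mp (h ▸ by simp : a ∈ G.bind Sym2.toMultiset)
    obtain ⟨g, hg, hb⟩ := mem_bind.mp (h ▸ by simp : b ∈ G.bind Sym2.toMultiset)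
    rw [Sym2.mem_toMultiset] at ha hb
    have fg : g ≠ f := fun q => k ((Sym2.mem_and_mem_iff ab).mp ⟨ha, q ▸ hb⟩ ▸ hf)
    obtain ⟨x, rfl⟩ := Sym2.mem_iff_exists.mp ha
    obtain ⟨y, rfl⟩ := Sym2.mem_iff_exists.mp hb
    obtain ⟨R, rfl⟩ := exists_cons_of_mem hf
    obtain ⟨R, rfl⟩ := exists_cons_of_mem ((mem_cons.mp hg).resolve_left fg)
    obtain ⟨n, hn⟩ := st (s(y, x) ::ₘ R) (by
      rw [h]; simp only [cons_bind, tm]; abel)
    exact ⟨n + 1, _, ⟨x, a, b, y, R, by rw [Sym2.eq_swap], rfl, trivial⟩, hn⟩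

theorem result (V : Type) [DecidableEq V] (G : Multiset (Sym2 V))
    (h : ∃ H : Multiset (Sym2 V), Simple H ∧ ∀ v, deg H v = deg G v) :
    ∃ n H, Simple H ∧ Steps GoodSwap n G H ∧ ∀ m H', Simple H' → Steps Swap m G H' → n ≤ m := by
  classical
  obtain ⟨H, h1, h2⟩ := h
  have e : ∃ n, ∃ H, Simple H ∧ Steps Swap n G H :=
    (conn H (fun e he => (h1 e he).1) G (ext.mpr h2)).imp fun n hn => ⟨H, h1, hn⟩
  obtain ⟨K, k1, k2⟩ := Nat.find_spec e
  have m : ∀ m H', Simple H' → Steps Swap m G H' → Nat.find e ≤ m := fun m H' a b =>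
    Nat.find_min' e ⟨H', a, b⟩
  exact ⟨_, K, k1, good K k1 _ G k2 m, m⟩

end Pool.Agent.Results.MP_742338_co.No
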